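import Mathlib
import Pool.Agent.H633R3.DiscDefs

/-!
# All the sets `{u a ^ n + v}` are bad

Item (iii) of the question asks whether `{2 ^ n + 1}` is good or bad.  We show that for all integers
`a ≥ 2` and `u, v ≥ 1` the set `{u a ^ n + v : n ≥ 1}` is bad.

Proof.  Let `p` be a prime with `p ≡ -1` modulo `4 a u v` (Dirichlet).  By quadratic reciprocity `a`,
`u` and `v` are quadratic residues modulo `p` while `-1` is not, so `p` divides no number
`u a ^ n + v`.  Let `K = p - 1` and let `p ^ e` be the exact power of `p` in `a ^ K - 1`, and let `χ` be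
a character modulo `p ^ (e + 1)` with `χ (a ^ K) ≠ 1`.  For fixed `r` the numbers `χ (u a ^ (r + K m) + v)`,
`m = 0, 1, …`, form a geometric progression whose ratio is a `p`-th root of unity different from `1`.  So
the sums over the blocks of length `K p` vanish.  The unimodular function is `χ`, extended to the
multiples of `p` by the value `1` at `p`.
-/

set_option autoImplicit false

namespace Pool.Agent.Results.MP_726576_nt.ExponentialSets

open Finset Pool.Agent.H633R3.Disc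

open Classical in
/-- the character `ψ` modulo `p ^ k`, extended by the value `1` at `p` -/
noncomputable def A (p k : ℕ) (ψ : (ZMod (p ^ k))ˣ →* Circle) (m : ℕ) : Circle :=
  if h : (ordCompl[p] m).Coprime (p ^ k) then ψ (ZMod.unitOfCoprime _ h) else 1

theorem cop {p : ℕ} (k : ℕ) (hp : p.Prime) {m : ℕ} (hm : 1 ≤ m) :
    (ordCompl[p] m).Coprime (p ^ k) :=
  (Nat.coprime_ordCompl hp (by omega)).symm.pow_right k

theorem A_mul {p k : ℕ} (hp : p.Prime) (ψ : (ZMod (p ^ k))ˣ →* Circle) {m n : ℕ} (hm : 1 ≤ m)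
    (hn : 1 ≤ n) : A p k ψ (m * n) = A p k ψ m * A p k ψ n := by
  unfold A
  have hmn : 1 ≤ m * n := Nat.mul_pos hm hn
  rw [dif_pos (cop k hp hmn), dif_pos (cop k hp hm), dif_pos (cop k hp hn), ← map_mul]
  congr 1
  apply Units.ext
  rw [Units.val_mul, ZMod.coe_unitOfCoprime, ZMod.coe_unitOfCoprime, ZMod.coe_unitOfCoprime,
    Nat.ordCompl_mul, Nat.cast_mul]

theorem A_of {p k : ℕ} (hp : p.Prime) (ψ : (ZMod (p ^ k))ˣ →* Circle) {m : ℕ} (hm : ¬ p ∣ m)
    (h : m.Coprime (p ^ k)) : A p k ψ m = ψ (ZMod.unitOfCoprime m h) := by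
  have hm0 : 1 ≤ m := Nat.one_le_iff_ne_zero.2 fun h0 => hm (h0 ▸ dvd_zero p)
  have e : ordCompl[p] m = m := by
    rw [Nat.factorization_eq_zero_of_not_dvd hm, pow_zero, Nat.div_one]
  unfold A
  rw [dif_pos (cop k hp hm0)]
  congr 1
  apply Units.ext
  rw [ZMod.coe_unitOfCoprime, ZMod.coe_unitOfCoprime, e]

theorem one_add_pow {R : Type} [CommRing R] {P : R} (c : R) (hP : P * P = 0) (m : ℕ) :
    (1 + c * P) ^ m = 1 + m * c * P := by
  induction m with
  | zero => simp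
  | succ m ih =>
    rw [pow_succ, ih]
    push_cast
    linear_combination (m * c * c) * hP

/-- a character as a homomorphism to the circle -/
noncomputable def toC {M : ℕ} [NeZero M] (χ : DirichletCharacter ℂ M) : (ZMod M)ˣ →* Circle where
  toFun x := ⟨χ x, mem_sphere_zero_iff_norm.2 (χ.unit_norm_eq_one x)⟩
  map_one' := by
    apply Subtype.ext
    simp
  map_mul' x y := by
    apply Subtype.ext
    show χ ((x * y : (ZMod M)ˣ) : ZMod M) = χ x * χ y
    rw [Units.val_mul, map_mul]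

theorem exists_psi {M : ℕ} [NeZero M] {g : (ZMod M)ˣ} (hg : g ≠ 1) :
    ∃ ψ : (ZMod M)ˣ →* Circle, ψ g ≠ 1 := by
  have h1 : (g : ZMod M) ≠ 1 := fun h => hg (Units.ext h)
  obtain ⟨χ, hχ⟩ := DirichletCharacter.exists_apply_ne_one_of_hasEnoughRootsOfUnity ℂ h1
  refine ⟨toC χ, fun h => hχ ?_⟩
  have h2 : ((toC χ g : Circle) : ℂ) = 1 := by rw [h, Circle.coe_one]
  exact h2

/-! ### the prime -/

theorem jac {p m : ℕ} (hp : p.Prime) (hm : 1 ≤ m) (h : 4 * m ∣ p + 1) : jacobiSym m p = 1 := by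
  have hodd : Odd p := by
    rcases hp.eq_two_or_odd' with h2 | h2
    · subst h2
      have := Nat.le_of_dvd (by norm_num) h
      omega
    · exact h2
  obtain ⟨c, hc⟩ := h
  have hc0 : 1 ≤ c := by
    rcases Nat.eq_zero_or_pos c with h0 | h0
    · rw [h0] at hc
      omega
    · exact h0
  have h4 : p % (4 * m) = 4 * m - 1 := by
    have e : p = (4 * m - 1) + 4 * m * (c - 1) := by
      have : 4 * m * c = 4 * m * (c - 1) + 4 * m := by
        conv_lhs => rw [show c = (c - 1) + 1 by omega]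
        ring
      omega
    rw [e, Nat.add_mul_mod_self_left]
    exact Nat.mod_eq_of_lt (by omega)
  rw [jacobiSym.mod_right' m hodd, h4]
  have hodd2 : Odd (4 * m - 1) := by
    refine ⟨2 * m - 1, by omega⟩
  have h5 : jacobiSym ((4 * m : ℕ) : ℤ) (4 * m - 1) = 1 := by
    have h6 : (((4 * m : ℕ) : ℤ)) % ((4 * m - 1 : ℕ) : ℤ) = 1 % ((4 * m - 1 : ℕ) : ℤ) := by
      have : ((4 * m : ℕ) : ℤ) = 1 + ((4 * m - 1 : ℕ) : ℤ) * 1 := by
        push_cast [Nat.cast_sub (show 1 ≤ 4 * m by omega)]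
        ring
      rw [this, Int.add_mul_emod_self_left]
    rw [jacobiSym.mod_left' h6, jacobiSym.one_left]
  have h7 : ((4 * m : ℕ) : ℤ) = 2 ^ 2 * (m : ℤ) := by
    push_cast
    ring
  have h8 : Int.gcd 2 ((4 * m - 1 : ℕ) : ℤ) = 1 := by
    rw [show ((2 : ℤ)) = ((2 : ℕ) : ℤ) by norm_num, Int.gcd_natCast_natCast]
    exact (Nat.coprime_two_left).2 hodd2
  rw [h7, jacobiSym.mul_left, jacobiSym.pow_left, jacobiSym.sq_one h8, one_mul] at h5
  exact h5

theorem not_dvd {p a u v : ℕ} (hp : p.Prime) (ha : 1 ≤ a) (hu : 1 ≤ u) (hv : 1 ≤ v)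
    (h : 4 * (a * u * v) ∣ p + 1) (n : ℕ) : ¬ p ∣ u * a ^ n + v := by
  intro hd
  have ha' := jac hp ha ((Nat.mul_dvd_mul_left 4 ⟨u * v, by ring⟩).trans h)
  have hu' := jac hp hu ((Nat.mul_dvd_mul_left 4 ⟨a * v, by ring⟩).trans h)
  have hv' := jac hp hv ((Nat.mul_dvd_mul_left 4 ⟨a * u, by ring⟩).trans h)
  have h4 : p % 4 = 3 := by
    have : 4 ∣ p + 1 := (Dvd.intro _ rfl).trans h
    omega
  have hodd : Odd p := Nat.odd_iff.2 (by omega)
  have h1 : ((u * a ^ n : ℕ) : ℤ) ≡ -1 * (v : ℤ) [ZMOD (p : ℤ)] := by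
    rw [Int.modEq_iff_dvd]
    have h2 : (p : ℤ) ∣ ((u * a ^ n + v : ℕ) : ℤ) := by exact_mod_cast hd
    have e : -1 * (v : ℤ) - ((u * a ^ n : ℕ) : ℤ) = -((u * a ^ n + v : ℕ) : ℤ) := by
      push_cast
      ring
    rw [e]
    exact (dvd_neg).2 h2
  have h3 := jacobiSym.mod_left' h1
  push_cast at h3
  rw [jacobiSym.mul_left, jacobiSym.pow_left, hu', ha', one_pow, one_mul, jacobiSym.mul_left,
    jacobiSym.at_neg_one hodd, ZMod.χ₄_nat_three_mod_four h4, hv'] at h3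
  norm_num at h3

theorem sum_block (K q : ℕ) (F : ℕ → ℂ) :
    ∑ j ∈ range (K * q), F j = ∑ m ∈ range q, ∑ r ∈ range K, F (K * m + r) := by
  induction q with
  | zero => simp
  | succ q ih => rw [Nat.mul_succ, Finset.sum_range_add, ih, Finset.sum_range_succ]

theorem main {p a u v : ℕ} (hp : p.Prime) (hpa : ¬ p ∣ a) (hpu : ¬ p ∣ u)
    (hnd : ∀ n, ¬ p ∣ u * a ^ n + v) (ha : 2 ≤ a) (hu : 1 ≤ u) (hp2 : 2 ≤ p) :
    Bad {k : ℕ | ∃ n : ℕ, 1 ≤ n ∧ k = u * a ^ n + v} := by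
  set K := p - 1 with hK
  have hK1 : 1 ≤ K := by omega
  have haK1 : 1 < a ^ K := Nat.one_lt_pow (by omega) (by omega)
  set e := (a ^ K - 1).factorization p with he
  have hfac : ¬ p ^ (e + 1) ∣ a ^ K - 1 := Nat.pow_succ_factorization_not_dvd (by omega) hp
  obtain ⟨t, ht⟩ := Nat.ordProj_dvd (a ^ K - 1) p
  rw [← he] at ht
  have hFact : Fact p.Prime := ⟨hp⟩
  have he1 : 1 ≤ e := by
    by_contra hcon
    have he0 : e = 0 := by omega
    rw [he0, zero_add, pow_one] at hfac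
    apply hfac
    rw [← ZMod.natCast_eq_zero_iff, Nat.cast_sub haK1.le, Nat.cast_pow, Nat.cast_one, hK,
      ZMod.pow_card_sub_one_eq_one, sub_self]
    intro h0
    exact hpa ((ZMod.natCast_eq_zero_iff a p).1 h0)
  have hNe : NeZero (p ^ (e + 1)) := ⟨pow_ne_zero _ hp.ne_zero⟩
  set P : ZMod (p ^ (e + 1)) := (p : ZMod (p ^ (e + 1))) ^ e with hP
  have hpP : (p : ZMod (p ^ (e + 1))) * P = 0 := by
    rw [hP, ← pow_succ', ← Nat.cast_pow, ZMod.natCast_self]
  have hPP : P * P = 0 := by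
    have h1 : P = (p : ZMod (p ^ (e + 1))) ^ (e - 1) * p := by
      rw [hP, ← pow_succ]
      congr 1
      omega
    calc P * P = (p : ZMod (p ^ (e + 1))) ^ (e - 1) * (p * P) := by
          rw [← mul_assoc, ← h1]
      _ = 0 := by rw [hpP, mul_zero]
  have haK : (a : ZMod (p ^ (e + 1))) ^ K = 1 + t * P := by
    have h1 : a ^ K = 1 + t * p ^ e := by
      rw [mul_comm t, ← ht]
      omega
    have h2 := congrArg (fun n : ℕ => (n : ZMod (p ^ (e + 1)))) h1
    simpa [hP] using h2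
  have hc : ∀ m : ℕ, ¬ p ∣ m → m.Coprime (p ^ (e + 1)) := fun m hm =>
    (((Nat.Prime.coprime_iff_not_dvd hp).2 hm).symm).pow_right _
  let U : ℕ → (ZMod (p ^ (e + 1)))ˣ := fun i => ZMod.unitOfCoprime _ (hc _ (hnd (i + 1)))
  have hU : ∀ i, ((U i : (ZMod (p ^ (e + 1)))ˣ) : ZMod (p ^ (e + 1))) = u * a ^ (i + 1) + v := by
    intro i
    rw [ZMod.coe_unitOfCoprime]
    push_cast
    rfl
  have hndW : ∀ i, ¬ p ∣ u * a ^ i := fun i h =>
    (hp.dvd_mul.1 h).elim hpu fun h => hpa (hp.dvd_of_dvd_pow h)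
  let W : ℕ → (ZMod (p ^ (e + 1)))ˣ := fun i => ZMod.unitOfCoprime _ (hc _ (hndW (i + 1)))
  have hW : ∀ i, ((W i : (ZMod (p ^ (e + 1)))ˣ) : ZMod (p ^ (e + 1))) = u * a ^ (i + 1) := by
    intro i
    rw [ZMod.coe_unitOfCoprime]
    push_cast
    rfl
  have hndg : ¬ p ∣ a ^ K := fun h => hpa (hp.dvd_of_dvd_pow h)
  set g : (ZMod (p ^ (e + 1)))ˣ := ZMod.unitOfCoprime _ (hc _ hndg) with hg
  have hgv : (g : ZMod (p ^ (e + 1))) = 1 + t * P := by
    rw [hg, ZMod.coe_unitOfCoprime, Nat.cast_pow, haK]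
  have hg1 : g ≠ 1 := by
    intro h
    apply hfac
    have h1 : ((a ^ K : ℕ) : ZMod (p ^ (e + 1))) = 1 := by
      have := congrArg (fun z : (ZMod (p ^ (e + 1)))ˣ => (z : ZMod (p ^ (e + 1)))) h
      simpa [hg, ZMod.coe_unitOfCoprime] using this
    rw [← ZMod.natCast_eq_zero_iff, Nat.cast_sub haK1.le, h1]
    simp
  obtain ⟨ψ, hψ⟩ := exists_psi hg1
  let H : ℕ → (ZMod (p ^ (e + 1)))ˣ := fun r => U (r + K) * (U r)⁻¹
  let c : ℕ → ZMod (p ^ (e + 1)) := fun r => ((U r)⁻¹ : (ZMod (p ^ (e + 1)))ˣ) * (W r) * t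
  have hUi : ∀ r, ((U r : (ZMod (p ^ (e + 1)))ˣ) : ZMod (p ^ (e + 1))) *
      (((U r)⁻¹ : (ZMod (p ^ (e + 1)))ˣ) : ZMod (p ^ (e + 1))) = 1 := fun r => Units.mul_inv _
  have hWi : ∀ r, ((W r : (ZMod (p ^ (e + 1)))ˣ) : ZMod (p ^ (e + 1))) *
      (((W r)⁻¹ : (ZMod (p ^ (e + 1)))ˣ) : ZMod (p ^ (e + 1))) = 1 := fun r => Units.mul_inv _
  have hUK : ∀ r m : ℕ, ((U (r + K * m) : (ZMod (p ^ (e + 1)))ˣ) : ZMod (p ^ (e + 1))) =
      U r + m * W r * t * P := by
    intro r m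
    rw [hU, hU, hW, show r + K * m + 1 = (r + 1) + K * m by ring,
      pow_add (a : ZMod (p ^ (e + 1))) (r + 1) (K * m), pow_mul (a : ZMod (p ^ (e + 1))) K m, haK,
      one_add_pow _ hPP]
    ring
  have hH : ∀ r, ((H r : (ZMod (p ^ (e + 1)))ˣ) : ZMod (p ^ (e + 1))) = 1 + c r * P := by
    intro r
    have h1 := hUK r 1
    rw [mul_one] at h1
    show ((U (r + K) * (U r)⁻¹ : (ZMod (p ^ (e + 1)))ˣ) : ZMod (p ^ (e + 1))) = _
    rw [Units.val_mul, h1]
    show _ = 1 + (((U r)⁻¹ : (ZMod (p ^ (e + 1)))ˣ) : ZMod (p ^ (e + 1))) * (W r) * t * P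
    push_cast
    linear_combination hUi r
  have hUm : ∀ r m : ℕ, U (r + K * m) = U r * H r ^ m := by
    intro r m
    apply Units.ext
    rw [hUK, Units.val_mul, Units.val_pow_eq_pow_val, hH, one_add_pow _ hPP]
    show _ = (U r : ZMod (p ^ (e + 1))) * (1 + (m : ZMod (p ^ (e + 1))) *
      ((((U r)⁻¹ : (ZMod (p ^ (e + 1)))ˣ) : ZMod (p ^ (e + 1))) * (W r) * t) * P)
    linear_combination (-(m : ZMod (p ^ (e + 1))) * W r * t * P) * hUi r
  have hHp : ∀ r, H r ^ p = 1 := by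
    intro r
    apply Units.ext
    rw [Units.val_pow_eq_pow_val, hH, one_add_pow _ hPP, Units.val_one]
    linear_combination (c r) * hpP
  have hHne : ∀ r, ψ (H r) ≠ 1 := by
    intro r h
    apply hψ
    set y : ZMod (p ^ (e + 1)) := (U r : ZMod (p ^ (e + 1))) *
      (((W r)⁻¹ : (ZMod (p ^ (e + 1)))ˣ) : ZMod (p ^ (e + 1))) with hy
    have h1 : H r ^ y.val = g := by
      apply Units.ext
      rw [Units.val_pow_eq_pow_val, hH, one_add_pow _ hPP, ZMod.natCast_zmod_val, hgv]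
      show 1 + y * ((((U r)⁻¹ : (ZMod (p ^ (e + 1)))ˣ) : ZMod (p ^ (e + 1))) * (W r) * t) * P = _
      rw [hy]
      linear_combination ((U r : ZMod (p ^ (e + 1))) *
        (((U r)⁻¹ : (ZMod (p ^ (e + 1)))ˣ) : ZMod (p ^ (e + 1))) * t * P) * hWi r + (t * P) * hUi r
    rw [← h1, map_pow, h, one_pow]
  have hφ : StrictMono (fun i : ℕ => u * a ^ (i + 1) + v) := by
    intro i j hij
    have h1 : a ^ (i + 1) < a ^ (j + 1) := Nat.pow_lt_pow_right (by omega) (by omega)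
    have h2 : u * a ^ (i + 1) < u * a ^ (j + 1) := Nat.mul_lt_mul_of_pos_left h1 hu
    show u * a ^ (i + 1) + v < u * a ^ (j + 1) + v
    omega
  have hA : ∀ i, A p (e + 1) ψ (u * a ^ (i + 1) + v) = ψ (U i) := fun i => A_of hp ψ (hnd _) _
  refine bad_of_enum (φ := fun i : ℕ => u * a ^ (i + 1) + v) (C := ((K * p : ℕ) : ℝ)) hφ ?_ ?_
    (A p (e + 1) ψ) (fun m n hm hn => A_mul hp ψ hm hn) ?_
  · have : 0 < u * a ^ (0 + 1) := Nat.mul_pos hu (by positivity)
    show 1 ≤ u * a ^ (0 + 1) + v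
    omega
  · ext k
    simp only [Set.mem_ofPred_eq, Set.mem_range]
    constructor
    · rintro ⟨n, hn, rfl⟩
      exact ⟨n - 1, by rw [Nat.sub_add_cancel hn]⟩
    · rintro ⟨i, rfl⟩
      exact ⟨i + 1, by omega, rfl⟩
  · refine block_bound (F := fun i : ℕ => ((A p (e + 1) ψ (u * a ^ (i + 1) + v) : Circle) : ℂ))
      (fun n => (Circle.norm_coe _).le) (Nat.mul_pos hK1 hp.pos) ?_
    intro s
    rw [sum_block K p (fun j => ((A p (e + 1) ψ (u * a ^ (K * p * s + j + 1) + v) : Circle) : ℂ)),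
      Finset.sum_comm]
    refine Finset.sum_eq_zero fun r _ => ?_
    have h1 : ∀ m : ℕ, ((A p (e + 1) ψ (u * a ^ (K * p * s + (K * m + r) + 1) + v) : Circle) : ℂ) =
        ((ψ (U r) : Circle) : ℂ) * ((ψ (H r) : Circle) : ℂ) ^ (p * s) *
          ((ψ (H r) : Circle) : ℂ) ^ m := by
      intro m
      rw [hA, show K * p * s + (K * m + r) = r + K * (p * s + m) by ring, hUm, map_mul, map_pow,
        Circle.coe_mul, Circle.coe_pow, pow_add ((ψ (H r) : Circle) : ℂ) (p * s) m]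
      ring
    rw [Finset.sum_congr rfl fun m _ => h1 m, ← Finset.mul_sum]
    have h2 : ((ψ (H r) : Circle) : ℂ) ^ p = 1 := by
      rw [← Circle.coe_pow, ← map_pow, hHp, map_one, Circle.coe_one]
    have h3 : ((ψ (H r) : Circle) : ℂ) - 1 ≠ 0 := by
      intro h
      apply hHne r
      apply Circle.ext
      rw [Circle.coe_one]
      linear_combination h
    have h4 := mul_geom_sum ((ψ (H r) : Circle) : ℂ) p
    rw [h2, sub_self] at h4
    rw [(mul_eq_zero.1 h4).resolve_left h3, mul_zero]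

/-- **Theorem.** For all integers `a ≥ 2` and `u, v ≥ 1` the set `{u a ^ n + v : n ≥ 1}` is bad: some
unimodular sequence has bounded sums over the elements of the set up to `n`, uniformly in the
dilation `d`.  For `a = 2`, `u = v = 1` this is item (iii) of the question. -/
theorem result : ∀ a u v : ℕ, 2 ≤ a → 1 ≤ u → 1 ≤ v →
    Bad {k : ℕ | ∃ n : ℕ, 1 ≤ n ∧ k = u * a ^ n + v} := by
  intro a u v ha hu hv
  have hq : 4 * (a * u * v) ≠ 0 := by positivity
  have : NeZero (4 * (a * u * v)) := ⟨hq⟩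
  obtain ⟨p, hp1, hp, hp3⟩ := Nat.forall_exists_prime_gt_and_eq_mod
    (q := 4 * (a * u * v)) (a := -1) (isUnit_one.neg) 2
  have hdvd : 4 * (a * u * v) ∣ p + 1 := by
    rw [← ZMod.natCast_eq_zero_iff, Nat.cast_add, hp3]
    simp
  have hpn : ∀ m : ℕ, m ∣ 4 * (a * u * v) → ¬ p ∣ m := by
    intro m hm hpm
    have h1 : p ∣ p + 1 := (hpm.trans hm).trans hdvd
    have h2 : p ∣ 1 := (Nat.dvd_add_right (dvd_refl p)).1 h1
    exact hp.one_lt.ne' (Nat.dvd_one.1 h2)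
  exact main hp (hpn a ⟨4 * (u * v), by ring⟩) (hpn u ⟨4 * (a * v), by ring⟩)
    (not_dvd hp (by omega) hu hv hdvd) ha hu hp.two_le

end Pool.Agent.Results.MP_726576_nt.ExponentialSets
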