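import Mathlib
import Pool.Agent.H633R3.DiscDefs

/-!
# The sets `{n ^ 2 + c}`

Item (ii) of the question asks whether `{n ^ 2 + 1}` and `{n ^ 2 - 1}` are good or bad.  We show that the
set of the positive integers of the form `n ^ 2 + c` is bad for all integers `c ≡ 1, 2 (mod 4)`, all
`c ≡ 3 (mod 8)` and all `c = - d ^ 2` with `d` odd.

Proof.  In the first cases the exponent of `2` in `n ^ 2 + c` depends only on the parity of `n`: it is
zero for one parity and `e = 1` or `e = 2` for the other one, and the unimodular function is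
`m ↦ z ^ v` with `z ^ e = -1`, where `v` is the exponent of `2` in `m`.  For `c = - d ^ 2` the unimodular
function is the completely multiplicative function `s` with `s 2 = 1` and `s p = 1` for `p ≡ 1, 3 (mod 8)`,
`s p = -1` for `p ≡ 5, 7 (mod 8)`.  One has to bound the sums of `s j * s (j + 2 d)`.  The odd `j` give an
alternating sum, and the even `j = 2 i` the sum of `s i * s (i + d)`.  Here exactly one of the
numbers `i`, `i + d` is even, call it `y`; the other one is `y + d` or `y - d`, and so up to boundedly many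
terms the sum is the sum of `s y * (χ (y + d) + χ (y - d))` over the even `y`, which vanishes for `4 ∣ y`
as `χ (-1) = -1`, and which is periodic with mean zero for the other `y`.
-/

set_option autoImplicit false

namespace Pool.Agent.Results.MP_726576_nt.SquareShifts

open Finset Pool.Agent.H633R3.Disc

/-! ### the character -/

/-- on odd integers this is the odd character modulo `8` with the value `1` at `3` -/
def chi (x : ℤ) : ℤ := if x % 8 = 1 ∨ x % 8 = 3 then 1 else -1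

lemma chi_mul {x y : ℤ} (hx : x % 2 = 1) (hy : y % 2 = 1) : chi (x * y) = chi x * chi y := by
  have h1 : x % 8 = 1 ∨ x % 8 = 3 ∨ x % 8 = 5 ∨ x % 8 = 7 := by omega
  have h2 : y % 8 = 1 ∨ y % 8 = 3 ∨ y % 8 = 5 ∨ y % 8 = 7 := by omega
  unfold chi
  rw [Int.mul_emod]
  rcases h1 with h1 | h1 | h1 | h1 <;> rcases h2 with h2 | h2 | h2 | h2 <;> rw [h1, h2] <;> norm_num

lemma chi_eight (x : ℤ) : chi (x + 8) = chi x := by
  unfold chi
  rw [Int.add_emod_right]

lemma chi_four {x : ℤ} (hx : x % 2 = 1) : chi (x + 4) = - chi x := by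
  unfold chi
  split_ifs <;> omega

lemma chi_sq (x : ℤ) : chi x = 1 ∨ chi x = -1 := by
  unfold chi
  split_ifs
  · exact Or.inl rfl
  · exact Or.inr rfl

/-- the completely multiplicative function -/
def s (m : ℕ) : ℤ := chi ((ordCompl[2] m : ℕ) : ℤ)

lemma odd_part {m : ℕ} (hm : 1 ≤ m) : ((ordCompl[2] m : ℕ) : ℤ) % 2 = 1 := by
  have := Nat.not_dvd_ordCompl (n := m) Nat.prime_two (by omega)
  omega

lemma s_mul {m n : ℕ} (hm : 1 ≤ m) (hn : 1 ≤ n) : s (m * n) = s m * s n := by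
  unfold s
  rw [Nat.ordCompl_mul, Nat.cast_mul, chi_mul (odd_part hm) (odd_part hn)]

lemma s_sq (m : ℕ) : s m = 1 ∨ s m = -1 := chi_sq _

lemma s_odd {m : ℕ} (hm : m % 2 = 1) : s m = chi m := by
  unfold s
  have : ¬ 2 ∣ m := by omega
  rw [Nat.factorization_eq_zero_of_not_dvd this, pow_zero, Nat.div_one]

lemma s_two {m : ℕ} (hm : 1 ≤ m) : s (2 * m) = s m := by
  rw [s_mul (by norm_num) hm]
  have : s 2 = 1 := by
    unfold s
    have : ordCompl[2] 2 = 1 := by
      rw [Nat.Prime.factorization_self Nat.prime_two]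
      norm_num
    rw [this]
    unfold chi
    norm_num
  rw [this, one_mul]

/-! ### the sums -/

lemma alt (F : ℕ → ℤ) (h : ∀ m, F (m + 1) = - F m) (N : ℕ) :
    2 * ∑ i ∈ range N, F i = F 0 - F N := by
  induction N with
  | zero => simp
  | succ N ih =>
    rw [sum_range_succ, mul_add, ih, h N]
    ring

lemma alt2 (F : ℕ → ℤ) (h : ∀ m, F (m + 2) = - F m) (N : ℕ) :
    2 * ∑ i ∈ range N, F i = F 0 + F 1 - F N - F (N + 1) := by
  induction N with
  | zero => simp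
  | succ N ih =>
    rw [sum_range_succ, mul_add, ih, show N + 1 + 1 = N + 2 by ring, h N]
    ring

lemma shift (F : ℕ → ℤ) (N d : ℕ) :
    ∑ i ∈ range N, F (i + d) = ∑ i ∈ range N, F i + ∑ i ∈ range d, F (N + i) -
      ∑ i ∈ range d, F i := by
  have h1 := Finset.sum_range_add F N d
  have h2 := Finset.sum_range_add F d N
  rw [add_comm d N, h1] at h2
  have h3 : ∑ i ∈ range N, F (i + d) = ∑ i ∈ range N, F (d + i) :=
    sum_congr rfl fun i _ => by rw [add_comm]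
  rw [h3]
  linarith

lemma sum_le (F : ℕ → ℤ) (h : ∀ m, |F m| ≤ 1) (d : ℕ) : |∑ i ∈ range d, F i| ≤ d := by
  refine (abs_sum_le_sum_abs _ _).trans ?_
  calc ∑ i ∈ range d, |F i| ≤ ∑ _i ∈ range d, (1 : ℤ) := sum_le_sum fun i _ => h i
    _ = d := by simp

/-- the part of the even numbers `y`, paired with `y + d` -/
def E (d y : ℕ) : ℤ := if y % 2 = 0 then s y * chi ((y : ℤ) + d) else 0

/-- the part of the even numbers `y`, paired with `y - d` -/
def O (d y : ℕ) : ℤ := if y % 2 = 0 then s y * chi ((y : ℤ) - d) else 0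

/-- the sum of both parts, for `y = 4 m + 2` -/
def gam (d m : ℕ) : ℤ :=
  chi (2 * (m : ℤ) + 1) * (chi (4 * (m : ℤ) + 2 + d) + chi (4 * (m : ℤ) + 2 - d))

lemma split_EO {d i : ℕ} (hd : d % 2 = 1) (_hi : 1 ≤ i) : s i * s (i + d) = E d i + O d (i + d) := by
  unfold E O
  by_cases h : i % 2 = 0
  · rw [if_pos h, if_neg (by omega), s_odd (m := i + d) (by omega), add_zero]
    push_cast
    rfl
  · rw [if_neg h, if_pos (by omega), s_odd (m := i) (by omega), zero_add]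
    push_cast
    rw [add_sub_cancel_right, mul_comm]

lemma EO_four {d y : ℕ} (hd : d % 2 = 1) (hy : y % 4 = 0) : E d y + O d y = 0 := by
  unfold E O
  rw [if_pos (by omega), if_pos (by omega), ← mul_add]
  have : chi ((y : ℤ) + d) + chi ((y : ℤ) - d) = 0 := by
    unfold chi
    split_ifs <;> omega
  rw [this, mul_zero]

lemma EO_two {d m : ℕ} : E d (4 * m + 2) + O d (4 * m + 2) = gam d m := by
  unfold E O gam
  rw [if_pos (by omega), if_pos (by omega), ← mul_add, show 4 * m + 2 = 2 * (2 * m + 1) by ring,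
    s_two (by omega), s_odd (m := 2 * m + 1) (by omega)]
  push_cast
  rw [show (2 : ℤ) * (2 * m + 1) = 4 * m + 2 by ring]

lemma gam_two {d m : ℕ} : gam d (m + 2) = - gam d m := by
  unfold gam
  push_cast
  rw [show 2 * ((m : ℤ) + 2) + 1 = (2 * m + 1) + 4 by ring,
    show 4 * ((m : ℤ) + 2) + 2 + d = (4 * m + 2 + d) + 8 by ring,
    show 4 * ((m : ℤ) + 2) + 2 - d = (4 * m + 2 - d) + 8 by ring, chi_eight, chi_eight,
    chi_four (by omega)]
  ring

lemma gam_abs (d m : ℕ) : |gam d m| ≤ 2 := by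
  unfold gam
  rcases chi_sq (2 * (m : ℤ) + 1) with h1 | h1 <;>
    rcases chi_sq (4 * (m : ℤ) + 2 + d) with h2 | h2 <;>
    rcases chi_sq (4 * (m : ℤ) + 2 - d) with h3 | h3 <;> rw [h1, h2, h3] <;> norm_num

lemma sum_EO {d : ℕ} (hd : d % 2 = 1) (N : ℕ) :
    ∑ i ∈ range N, (E d (i + 1) + O d (i + 1)) = ∑ m ∈ range ((N + 2) / 4), gam d m := by
  induction N with
  | zero => simp
  | succ N ih =>
    rw [sum_range_succ, ih]
    by_cases h2 : (N + 1) % 4 = 2
    · have e : (N + 1 + 2) / 4 = (N + 2) / 4 + 1 := by omega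
      rw [e, sum_range_succ, ← EO_two, show 4 * ((N + 2) / 4) + 2 = N + 1 by omega]
    · have e : (N + 1 + 2) / 4 = (N + 2) / 4 := by omega
      rw [e]
      have h0 : E d (N + 1) + O d (N + 1) = 0 := by
        by_cases h4 : (N + 1) % 4 = 0
        · exact EO_four hd h4
        · unfold E O
          rw [if_neg (by omega), if_neg (by omega), add_zero]
      rw [h0, add_zero]

lemma O_abs (d y : ℕ) : |O d y| ≤ 1 := by
  unfold O
  split_ifs
  · rcases s_sq y with h1 | h1 <;> rcases chi_sq ((y : ℤ) - d) with h2 | h2 <;> rw [h1, h2] <;>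
      norm_num
  · norm_num

lemma sum_T {d : ℕ} (hd : d % 2 = 1) (N : ℕ) :
    |∑ i ∈ range N, s (i + 1) * s (i + 1 + d)| ≤ 2 * d + 4 := by
  have h1 : ∑ i ∈ range N, s (i + 1) * s (i + 1 + d) =
      ∑ m ∈ range ((N + 2) / 4), gam d m + ∑ i ∈ range d, O d (N + i + 1) -
        ∑ i ∈ range d, O d (i + 1) := by
    rw [sum_congr rfl fun i _ => split_EO hd (show 1 ≤ i + 1 by omega), sum_add_distrib]
    have h2 := shift (fun i => O d (i + 1)) N d
    have h3 : ∑ i ∈ range N, O d (i + 1 + d) = ∑ i ∈ range N, O d (i + d + 1) :=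
      sum_congr rfl fun i _ => by rw [show i + 1 + d = i + d + 1 by ring]
    rw [h3, h2, ← sum_EO hd, sum_add_distrib]
    ring
  have h4 := alt2 (gam d) (fun m => gam_two) ((N + 2) / 4)
  have h5 := abs_le.1 (gam_abs d 0)
  have h6 := abs_le.1 (gam_abs d 1)
  have h7 := abs_le.1 (gam_abs d ((N + 2) / 4))
  have h8 := abs_le.1 (gam_abs d ((N + 2) / 4 + 1))
  have h9 := abs_le.1 (sum_le (fun i => O d (N + i + 1)) (fun i => O_abs d _) d)
  have h10 := abs_le.1 (sum_le (fun i => O d (i + 1)) (fun i => O_abs d _) d)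
  rw [h1, abs_le]
  constructor <;> linarith [h5.1, h5.2, h6.1, h6.2, h7.1, h7.2, h8.1, h8.2, h9.1, h9.2, h10.1, h10.2]

/-- the terms with an odd number `j = 2 m + 1` -/
def al (d m : ℕ) : ℤ := s (2 * m + 1) * s (2 * m + 1 + 2 * d)

lemma al_succ {d : ℕ} (hd : d % 2 = 1) (m : ℕ) : al d (m + 1) = - al d m := by
  unfold al
  rw [s_odd (by omega), s_odd (by omega), s_odd (by omega), s_odd (by omega)]
  unfold chi
  split_ifs <;> omega

lemma sum_split (d N : ℕ) :
    ∑ i ∈ range N, s (i + 1) * s (i + 1 + 2 * d) = ∑ m ∈ range ((N + 1) / 2), al d m +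
      ∑ m ∈ range (N / 2), s (m + 1) * s (m + 1 + d) := by
  induction N with
  | zero => simp
  | succ N ih =>
    rw [sum_range_succ, ih]
    by_cases h : N % 2 = 0
    · have e1 : (N + 1 + 1) / 2 = (N + 1) / 2 + 1 := by omega
      have e2 : (N + 1) / 2 = N / 2 := by omega
      rw [e1, sum_range_succ, e2]
      unfold al
      rw [show 2 * (N / 2) + 1 = N + 1 by omega]
      ring
    · have e1 : (N + 1 + 1) / 2 = (N + 1) / 2 := by omega
      have e2 : (N + 1) / 2 = N / 2 + 1 := by omega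
      rw [e1]
      conv_rhs => rw [e2]
      rw [sum_range_succ (fun m => s (m + 1) * s (m + 1 + d))]
      have e3 : N + 1 = 2 * (N / 2 + 1) := by omega
      have e4 : N + 1 + 2 * d = 2 * (N / 2 + 1 + d) := by omega
      rw [e4, s_two (by omega)]
      conv_lhs => rw [show s (N + 1) = s (N / 2 + 1) by rw [e3, s_two (by omega)]]
      rw [e2]
      ring

lemma sum_J {d : ℕ} (hd : d % 2 = 1) (N : ℕ) :
    |∑ i ∈ range N, s (i + 1) * s (i + 1 + 2 * d)| ≤ 2 * d + 5 := by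
  have h1 := alt (al d) (al_succ hd) ((N + 1) / 2)
  have h2 : ∀ m, |al d m| ≤ 1 := by
    intro m
    unfold al
    rcases s_sq (2 * m + 1) with h | h <;> rcases s_sq (2 * m + 1 + 2 * d) with h' | h' <;>
      rw [h, h'] <;> norm_num
  have h3 := abs_le.1 (h2 0)
  have h4 := abs_le.1 (h2 ((N + 1) / 2))
  have h5 := abs_le.1 (sum_T hd (N / 2))
  rw [sum_split, abs_le]
  constructor <;> linarith [h3.1, h3.2, h4.1, h4.2, h5.1, h5.2]

/-! ### enumeration -/

lemma bad_int (c : ℤ) (a : ℕ → Circle)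
    (hmul : ∀ m n : ℕ, 1 ≤ m → 1 ≤ n → a (m * n) = a m * a n) (C : ℤ) (f : ℕ → ℕ → ℤ)
    (hf : ∀ n₀ i k : ℕ, 1 ≤ n₀ → 1 ≤ (n₀ : ℤ) ^ 2 + c →
      (∀ n : ℕ, 1 ≤ n → 1 ≤ (n : ℤ) ^ 2 + c → n₀ ≤ n) → 1 ≤ k →
      (k : ℤ) = ((n₀ + i : ℕ) : ℤ) ^ 2 + c → ((a k : Circle) : ℂ) = ((f n₀ i : ℤ) : ℂ))
    (hC : ∀ n₀ N : ℕ, |∑ i ∈ range N, f n₀ i| ≤ C) :
    Bad {k : ℕ | 1 ≤ k ∧ ∃ n : ℕ, 1 ≤ n ∧ (k : ℤ) = (n : ℤ) ^ 2 + c} := by
  classical
  have hex : ∃ n : ℕ, 1 ≤ n ∧ 1 ≤ (n : ℤ) ^ 2 + c := by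
    refine ⟨c.natAbs + 1, by omega, ?_⟩
    have h1 : -c ≤ c.natAbs := by omega
    push_cast
    push_cast at h1
    nlinarith [abs_nonneg c]
  obtain ⟨h1, h2⟩ := Nat.find_spec hex
  have h3 : ∀ n : ℕ, 1 ≤ n → 1 ≤ (n : ℤ) ^ 2 + c → Nat.find hex ≤ n := fun n hn hn' =>
    Nat.find_min' hex ⟨hn, hn'⟩
  generalize Nat.find hex = n₀ at h1 h2 h3
  have hpos : ∀ i : ℕ, 1 ≤ ((n₀ + i : ℕ) : ℤ) ^ 2 + c := by
    intro i
    have h4 : (n₀ : ℤ) ^ 2 ≤ ((n₀ + i : ℕ) : ℤ) ^ 2 := by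
      push_cast
      have h5 : (0 : ℤ) ≤ (n₀ : ℤ) * i := by positivity
      nlinarith [sq_nonneg (i : ℤ)]
    linarith
  have hval : ∀ i : ℕ, (((((n₀ + i : ℕ) : ℤ) ^ 2 + c).toNat : ℕ) : ℤ) =
      ((n₀ + i : ℕ) : ℤ) ^ 2 + c := fun i => Int.toNat_of_nonneg (by linarith [hpos i])
  have hφ : StrictMono (fun i : ℕ => (((n₀ + i : ℕ) : ℤ) ^ 2 + c).toNat) := by
    intro i j hij
    have h4 : ((n₀ + i : ℕ) : ℤ) ^ 2 < ((n₀ + j : ℕ) : ℤ) ^ 2 := by
      have h5 : n₀ + i < n₀ + j := by omega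
      exact_mod_cast Nat.pow_lt_pow_left h5 (by norm_num)
    have h5 := hval i
    have h6 := hval j
    show (((n₀ + i : ℕ) : ℤ) ^ 2 + c).toNat < (((n₀ + j : ℕ) : ℤ) ^ 2 + c).toNat
    have h7 : (((((n₀ + i : ℕ) : ℤ) ^ 2 + c).toNat : ℕ) : ℤ) <
        (((((n₀ + j : ℕ) : ℤ) ^ 2 + c).toNat : ℕ) : ℤ) := by
      rw [h5, h6]
      linarith
    exact_mod_cast h7
  have hone : ∀ i : ℕ, 1 ≤ (((n₀ + i : ℕ) : ℤ) ^ 2 + c).toNat := by
    intro i
    have h4 : (1 : ℤ) ≤ (((((n₀ + i : ℕ) : ℤ) ^ 2 + c).toNat : ℕ) : ℤ) := by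
      rw [hval]
      exact hpos i
    exact_mod_cast h4
  refine bad_of_enum (φ := fun i : ℕ => (((n₀ + i : ℕ) : ℤ) ^ 2 + c).toNat) (C := (C : ℝ)) hφ
    (hone 0) ?_ a hmul ?_
  · ext k
    simp only [Set.mem_ofPred_eq, Set.mem_range]
    constructor
    · rintro ⟨hk, n, hn, hkn⟩
      have h4 := h3 n hn (by rw [← hkn]; exact_mod_cast hk)
      refine ⟨n - n₀, ?_⟩
      have h5 := hval (n - n₀)
      rw [Nat.add_sub_cancel' h4, ← hkn] at h5
      rw [Nat.add_sub_cancel' h4, ← hkn]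
      exact_mod_cast h5
    · rintro ⟨i, rfl⟩
      exact ⟨hone i, n₀ + i, by omega, hval i⟩
  · intro N
    have h4 : ∑ i ∈ range N, ((a ((((n₀ + i : ℕ) : ℤ) ^ 2 + c).toNat) : Circle) : ℂ) =
        ((∑ i ∈ range N, f n₀ i : ℤ) : ℂ) := by
      rw [Int.cast_sum]
      exact sum_congr rfl fun i _ => hf n₀ i _ h1 h2 h3 (hone i) (hval i)
    rw [h4, Complex.norm_intCast]
    exact_mod_cast hC n₀ N

/-! ### the simple cases -/

lemma fac (e m : ℕ) (hm : m % 2 = 1) : (2 ^ e * m).factorization 2 = e := by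
  have h1 : m.factorization 2 = 0 := Nat.factorization_eq_zero_of_not_dvd (by omega)
  rw [Nat.factorization_mul (by positivity) (by omega), Finsupp.add_apply, h1, add_zero,
    Nat.Prime.factorization_pow Nat.prime_two, Finsupp.single_eq_same]

lemma sq_mod (n : ℕ) : (n % 2 = 0 → n ^ 2 % 4 = 0) ∧ (n % 2 = 1 → n ^ 2 % 8 = 1) := by
  constructor
  · intro h
    obtain ⟨t, rfl⟩ : ∃ t, n = 2 * t := ⟨n / 2, by omega⟩
    rw [show (2 * t) ^ 2 = 4 * t ^ 2 by ring]
    omega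
  · intro h
    rw [Nat.pow_mod]
    have h1 : n % 8 = 1 ∨ n % 8 = 3 ∨ n % 8 = 5 ∨ n % 8 = 7 := by omega
    rcases h1 with h1 | h1 | h1 | h1 <;> rw [h1]

/-- one parity of `n` gives odd numbers, the other one numbers with exactly `e` factors `2` -/
lemma bad_val (c : ℤ) (e r : ℕ) (z : Circle) (hz : (z : ℂ) ^ e = -1)
    (h1 : ∀ n k : ℕ, (k : ℤ) = (n : ℤ) ^ 2 + c → n % 2 = r → ∃ m, m % 2 = 1 ∧ k = 2 ^ e * m)
    (h0 : ∀ n k : ℕ, (k : ℤ) = (n : ℤ) ^ 2 + c → n % 2 ≠ r → k % 2 = 1) (hr : r < 2) :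
    Bad {k : ℕ | 1 ≤ k ∧ ∃ n : ℕ, 1 ≤ n ∧ (k : ℤ) = (n : ℤ) ^ 2 + c} := by
  refine bad_int c (fun m => z ^ (m.factorization 2)) ?_ 1
    (fun n₀ i => if (n₀ + i) % 2 = r then -1 else 1) ?_ ?_
  · intro m n hm hn
    show z ^ ((m * n).factorization 2) = _
    rw [Nat.factorization_mul (by omega) (by omega), Finsupp.add_apply, pow_add]
  · intro n₀ i k _ _ _ _ hk
    show ((z ^ (k.factorization 2) : Circle) : ℂ) = _
    rw [Circle.coe_pow]
    by_cases h : (n₀ + i) % 2 = r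
    · obtain ⟨m, hm, rfl⟩ := h1 _ _ hk h
      rw [fac e m hm, hz, if_pos h]
      push_cast
      rfl
    · have h2 := h0 _ _ hk h
      rw [Nat.factorization_eq_zero_of_not_dvd (by omega), pow_zero, if_neg h]
      push_cast
      rfl
  · intro n₀ N
    have h2 := alt (fun i => if (n₀ + i) % 2 = r then (-1 : ℤ) else 1) (by
      intro m
      show (if (n₀ + (m + 1)) % 2 = r then (-1 : ℤ) else 1) =
        - (if (n₀ + m) % 2 = r then (-1 : ℤ) else 1)
      split_ifs <;> omega) N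
    rw [abs_le]
    constructor
    · show -1 ≤ ∑ i ∈ range N, (if (n₀ + i) % 2 = r then (-1 : ℤ) else 1)
      split_ifs at h2 <;> linarith
    · show ∑ i ∈ range N, (if (n₀ + i) % 2 = r then (-1 : ℤ) else 1) ≤ 1
      split_ifs at h2 <;> linarith

/-- the number `-1` on the circle -/
noncomputable def negOne : Circle := ⟨-1, mem_sphere_zero_iff_norm.2 (by simp)⟩

/-- the number `i` on the circle -/
noncomputable def cI : Circle := ⟨Complex.I, mem_sphere_zero_iff_norm.2 (by simp)⟩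

lemma bad_sq (d : ℕ) (hd : d % 2 = 1) :
    Bad {k : ℕ | 1 ≤ k ∧ ∃ n : ℕ, 1 ≤ n ∧ (k : ℤ) = (n : ℤ) ^ 2 + -(d : ℤ) ^ 2} := by
  classical
  have hco : ∀ m : ℕ, (((if s m = 1 then (1 : Circle) else negOne) : Circle) : ℂ) =
      ((s m : ℤ) : ℂ) := by
    intro m
    rcases s_sq m with h | h
    · rw [if_pos h, h]
      simp
    · rw [if_neg (by rw [h]; norm_num), h]
      show (-1 : ℂ) = _
      push_cast
      rfl
  refine bad_int _ (fun m => if s m = 1 then (1 : Circle) else negOne) ?_ (2 * d + 5)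
    (fun _ i => s (i + 1) * s (i + 1 + 2 * d)) ?_ (fun _ N => sum_J hd N)
  · intro m n hm hn
    apply Circle.ext
    rw [Circle.coe_mul, hco, hco, hco, s_mul hm hn, Int.cast_mul]
  · intro n₀ i k hn₀ h1 h2 hk hkn
    rw [hco]
    have h3 : d < n₀ := by
      by_contra hcon
      push Not at hcon
      have h4 : (n₀ : ℤ) ≤ d := by exact_mod_cast hcon
      have h5 : (0 : ℤ) ≤ n₀ := by positivity
      nlinarith
    have h4 : n₀ ≤ d + 1 := h2 (d + 1) (by omega) (by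
      push_cast
      have : (0 : ℤ) ≤ d := by positivity
      nlinarith)
    have h5 : n₀ = d + 1 := by omega
    subst h5
    have h6 : k = (i + 1) * (i + 1 + 2 * d) := by
      have h7 : (k : ℤ) = (((i + 1) * (i + 1 + 2 * d) : ℕ) : ℤ) := by
        rw [hkn]
        push_cast
        ring
      exact_mod_cast h7
    rw [h6, s_mul (by omega) (by omega)]

/-- **Theorem.** The set of the positive integers of the form `n ^ 2 + c`, `n ≥ 1`, is bad for all
integers `c ≡ 1, 2 (mod 4)`, all `c ≡ 3 (mod 8)`, and all `c = - d ^ 2` with `d` odd. For `c = 1` and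
`c = -1` this is item (ii) of the question. -/
theorem result (c : ℤ) (hc : c % 4 = 1 ∨ c % 4 = 2 ∨ c % 8 = 3 ∨ ∃ d : ℤ, d % 2 = 1 ∧ c = - d ^ 2) :
    Bad {k : ℕ | 1 ≤ k ∧ ∃ n : ℕ, 1 ≤ n ∧ (k : ℤ) = (n : ℤ) ^ 2 + c} := by
  rcases hc with hc | hc | hc | ⟨d, hd, hc⟩
  · refine bad_val c 1 1 negOne (by rw [pow_one]; rfl) ?_ ?_ (by norm_num)
    · intro n k hk hn
      have h1 := (sq_mod n).2 hn
      have h2 : (k : ℤ) = ((n ^ 2 : ℕ) : ℤ) + c := by rw [hk]; push_cast; rfl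
      exact ⟨k / 2, by omega, by omega⟩
    · intro n k hk hn
      have h1 := (sq_mod n).1 (by omega)
      have h2 : (k : ℤ) = ((n ^ 2 : ℕ) : ℤ) + c := by rw [hk]; push_cast; rfl
      omega
  · refine bad_val c 1 0 negOne (by rw [pow_one]; rfl) ?_ ?_ (by norm_num)
    · intro n k hk hn
      have h1 := (sq_mod n).1 hn
      have h2 : (k : ℤ) = ((n ^ 2 : ℕ) : ℤ) + c := by rw [hk]; push_cast; rfl
      exact ⟨k / 2, by omega, by omega⟩
    · intro n k hk hn
      have h1 := (sq_mod n).2 (by omega)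
      have h2 : (k : ℤ) = ((n ^ 2 : ℕ) : ℤ) + c := by rw [hk]; push_cast; rfl
      omega
  · refine bad_val c 2 1 cI (by show Complex.I ^ 2 = -1; simp) ?_ ?_ (by norm_num)
    · intro n k hk hn
      have h1 := (sq_mod n).2 hn
      have h2 : (k : ℤ) = ((n ^ 2 : ℕ) : ℤ) + c := by rw [hk]; push_cast; rfl
      exact ⟨k / 4, by omega, by omega⟩
    · intro n k hk hn
      have h1 := (sq_mod n).1 (by omega)
      have h2 : (k : ℤ) = ((n ^ 2 : ℕ) : ℤ) + c := by rw [hk]; push_cast; rfl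
      omega
  · have h1 : c = -((d.natAbs : ℕ) : ℤ) ^ 2 := by
      rw [hc, Int.natAbs_sq]
    rw [h1]
    exact bad_sq d.natAbs (by omega)

end Pool.Agent.Results.MP_726576_nt.SquareShifts
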